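import Mathlib
import Pool.Agent.H85.PeanoDefs
import Pool.Agent.H85.PeanoMain

open Pool.Agent.H85

namespace Pool.Agent.Results.MP_ac4f45_gt.PeanoTrivialHigher

/-- **Positive answer to Q1 and Q2.**  There is a Peano continuum `X` (a compact, connected,
locally connected metric space) of infinite covering dimension such that for every subset
`M ⊆ X`, every base point `x ∈ M` and every `m ≥ 2` the homotopy group `π_m(M, x)` is trivial. -/
theorem result :
    ∃ (X : Type) (_ : MetricSpace X), CompactSpace X ∧ ConnectedSpace X ∧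
      LocallyConnectedSpace X ∧ (∀ n : ℕ, ¬ CovDimLE X n) ∧
      ∀ (M : Set X) (x : M) (m : ℕ), 2 ≤ m → Subsingleton (HomotopyGroup.Pi m M x) :=
  Pool.Agent.H85.PeanoMain.main

end Pool.Agent.Results.MP_ac4f45_gt.PeanoTrivialHigher
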